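import Pool.Agent.H77.TO.Stm

/-!
# A Linnik type lower bound for the primes in residue classes modulo powers of a base `b`

The version of `Pool.Agent.H77.TO.lin10` for the moduli `b ^ k`: real characters modulo `b ^ k` have a conductor
dividing `4 b`.
-/

set_option autoImplicit false

namespace Pool.Agent.H7.TO

open Finset Pool.Agent.H262R3.Lk Pool.Agent.W69.MH Pool.Agent.H77.TO

/-- squares modulo `4 b ^ (k + 1)` -/
theorem sq_exists4 (b : ℕ) (hb : 2 ≤ b) (k : ℕ) : ∀ u : ℕ, u ≡ 1 [MOD 4 * b] →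
    ∃ x : ℕ, x ^ 2 ≡ u [MOD 4 * b ^ (k + 1)] := by
  induction k with
  | zero =>
    intro u hu
    refine ⟨1, ?_⟩
    simpa using hu.symm
  | succ k ih =>
    intro u hu
    obtain ⟨x, hx⟩ := ih u hu
    -- `x` is prime to `b`
    have hxc : Nat.Coprime x b := by
      have h1 : x ^ 2 ≡ u [MOD b] := hx.of_dvd ⟨4 * b ^ k, by ring⟩
      have h1' : u ≡ 1 [MOD b] := hu.of_dvd ⟨4, by ring⟩
      have h2 : x ^ 2 ≡ 1 [MOD b] := h1.trans h1'
      have h3 : (x ^ 2).Coprime b := by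
        have := h2.gcd_eq
        rw [Nat.coprime_iff_gcd_eq_one, this]
        simp
      exact Nat.Coprime.coprime_dvd_left (dvd_pow_self x (by norm_num)) h3
    obtain ⟨y, hy⟩ : ∃ y : ℤ, (x : ℤ) * y ≡ 1 [ZMOD b] := by
      have := Int.gcd_eq_gcd_ab x b
      refine ⟨Int.gcdA x b, ?_⟩
      have h5 : (Int.gcd (x : ℤ) b : ℤ) = 1 := by
        have : Int.gcd (x : ℤ) b = 1 := by simpa [Int.gcd] using hxc
        rw [this]; norm_num
      rw [h5] at this
      rw [Int.modEq_iff_dvd]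
      exact ⟨Int.gcdB x b, by linarith⟩
    obtain ⟨t, ht⟩ : ∃ t : ℤ, (u : ℤ) - (x : ℤ) ^ 2 = 4 * (b : ℤ) ^ (k + 1) * t := by
      have h6 := (Nat.modEq_iff_dvd.1 hx)
      obtain ⟨t, ht⟩ := h6
      refine ⟨t, ?_⟩
      push_cast at ht
      linarith
    -- the new root
    obtain ⟨X, hX⟩ : ∃ X : ℤ, X ^ 2 ≡ (u : ℤ) [ZMOD 4 * (b : ℤ) ^ (k + 2)] := by
      refine ⟨x + 2 * (b : ℤ) ^ (k + 1) * (y * t), ?_⟩
      rw [Int.modEq_iff_dvd]
      obtain ⟨r, hr⟩ := Int.modEq_iff_dvd.1 hy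
      refine ⟨t * r - (b : ℤ) ^ k * (y * t) ^ 2, ?_⟩
      have e1 : (u : ℤ) = (x : ℤ) ^ 2 + 4 * (b : ℤ) ^ (k + 1) * t := by linarith
      have e2 : (1 : ℤ) = x * y + b * r := by linarith
      have e3 : (b : ℤ) ^ (k + 1) = b * (b : ℤ) ^ k := by ring
      have e4 : (b : ℤ) ^ (k + 2) = b ^ 2 * (b : ℤ) ^ k := by ring
      rw [e1, e4, e3]
      linear_combination (4 * (b * (b : ℤ) ^ k) * t) * e2
    refine ⟨(X % (4 * (b : ℤ) ^ (k + 2))).toNat, ?_⟩
    have hb0 : (0 : ℤ) < b := by exact_mod_cast (by omega : 0 < b)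
    have hpos : (0 : ℤ) < 4 * (b : ℤ) ^ (k + 2) := by positivity
    have h7 : (((X % (4 * (b : ℤ) ^ (k + 2))).toNat : ℕ) : ℤ) = X % (4 * (b : ℤ) ^ (k + 2)) :=
      Int.toNat_of_nonneg (Int.emod_nonneg _ hpos.ne')
    have h8 : (((X % (4 * (b : ℤ) ^ (k + 2))).toNat ^ 2 : ℕ) : ℤ) ≡ (u : ℤ)
        [ZMOD ((4 * b ^ (k + 2) : ℕ) : ℤ)] := by
      push_cast
      rw [h7]
      exact ((Int.mod_modEq X _).pow 2).trans hX
    exact (Int.natCast_modEq_iff).1 h8

/-- squares modulo powers of `b` -/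
theorem sq_exists (b : ℕ) (hb : 2 ≤ b) (k u : ℕ) (hu : u ≡ 1 [MOD 4 * b]) :
    ∃ x : ℕ, x ^ 2 ≡ u [MOD b ^ k] := by
  obtain ⟨x, hx⟩ := sq_exists4 b hb k u hu
  exact ⟨x, hx.of_dvd ⟨4 * b, by ring⟩⟩

/-- real characters modulo a power of `b` have a small conductor -/
theorem conductor_le (b : ℕ) (hb : 2 ≤ b) (k : ℕ) (χ : DirichletCharacter ℂ (b ^ k))
    (h2 : χ ^ 2 = 1) : χ.conductor ≤ 4 * b := by
  have hbk : 0 < b ^ k := by positivity
  have : NeZero (b ^ k) := ⟨hbk.ne'⟩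
  obtain ⟨d, hdd⟩ : ∃ d : ℕ, d = Nat.gcd (b ^ k) (4 * b) := ⟨_, rfl⟩
  have hd : d ∣ b ^ k := hdd ▸ Nat.gcd_dvd_left _ _
  have hd4 : d ∣ 4 * b := hdd ▸ Nat.gcd_dvd_right _ _
  have hd0 : 0 < d := Nat.pos_of_dvd_of_pos hd hbk
  have : NeZero d := ⟨hd0.ne'⟩
  have hf : χ.FactorsThrough d := by
    rw [DirichletCharacter.factorsThrough_iff_ker_unitsMap hd]
    intro u hu
    rw [MonoidHom.mem_ker] at hu ⊢
    -- `u ≡ 1` modulo `d`
    have h3 : ((u : ZMod (b ^ k)).val) ≡ 1 [MOD Nat.gcd (b ^ k) (4 * b)] := by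
      rw [← hdd]
      have h4 : ZMod.castHom hd (ZMod d) (u : ZMod (b ^ k)) = 1 := by
        have h5 := congrArg Units.val hu
        simpa [ZMod.unitsMap] using h5
      rw [ZMod.castHom_apply, ZMod.cast_eq_val] at h4
      have h6 : (((u : ZMod (b ^ k)).val : ℕ) : ZMod d) = ((1 : ℕ) : ZMod d) := by
        rw [h4]; norm_num
      exact (ZMod.natCast_eq_natCast_iff _ _ _).1 h6
    obtain ⟨v, hv1, hv2⟩ := Nat.chineseRemainder' h3
    obtain ⟨x, hx'⟩ := sq_exists b hb k v hv2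
    have hx := hx'.trans hv1
    have h8 : ((x : ZMod (b ^ k))) ^ 2 = (u : ZMod (b ^ k)) := by
      have h9 := (ZMod.natCast_eq_natCast_iff _ _ _).2 hx
      rw [ZMod.natCast_zmod_val] at h9
      push_cast at h9
      exact h9
    have hxu : IsUnit ((x : ZMod (b ^ k))) := by
      have : IsUnit (((x : ZMod (b ^ k))) ^ 2) := by rw [h8]; exact u.isUnit
      exact (isUnit_pow_iff (by norm_num)).1 this
    have h10 : u = hxu.unit ^ 2 := by
      ext
      rw [Units.val_pow_eq_pow_val, IsUnit.unit_spec, h8]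
    rw [h10, map_pow]
    ext
    rw [Units.val_pow_eq_pow_val, MulChar.coe_toUnitHom]
    have h11 := congrArg (fun f : DirichletCharacter ℂ (b ^ k) => f (hxu.unit : ZMod _)) h2
    simp only [MulChar.pow_apply_coe, MulChar.one_apply_coe] at h11
    simpa using h11
  exact (Nat.le_of_dvd hd0 (χ.conductor_dvd_of_mem_conductorSet hf)).trans
    (Nat.le_of_dvd (by positivity) hd4)

/-- the Linnik type bound for the moduli `b ^ k` -/
theorem linb : St_LINB := by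
  intro b hb
  have hSUM := Pool.Agent.W933.MHSum.sum_
  have hFL := Pool.Agent.W333.MH.fl
  have hDIFF := Pool.Agent.W505.MH.diff hFL hSUM
  have hA0 := Pool.Agent.W505.MH.a0 hFL hSUM
  have hCLS := Pool.Agent.W193.MH.Cls.cls hSUM
  have hB0 := Pool.Agent.H262R3.Lk.b0 Pool.Agent.W505.MH.bt hSUM
  have hB2 := Pool.Agent.W440.MH.b2 hSUM
  have hALG := Pool.Agent.H262R3.Lk.alg hSUM
  have hLIN := Pool.Agent.Y866.LK.linQ hSUM hDIFF hA0 hB0 hB2 hALG Pool.Agent.W215.MH.eul hCLS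
    Pool.Agent.W701.MH.abs_
  have hTAIL := Pool.Agent.W803.MH.tail Pool.Agent.W505.MH.bt hSUM
  obtain ⟨A, c, lam, hA, hc, hlam, hlam2, z1, h1⟩ := hLIN
  obtain ⟨K, z2, hK, h2⟩ := hTAIL A (c / 2) hA (by positivity)
  have hK0 : (0 : ℝ) < (K : ℝ) := by exact_mod_cast hK
  refine ⟨K, c / (2 * (K : ℝ) ^ 3), hK, by positivity, ?_⟩
  obtain ⟨z3, h3w⟩ := Pool.Agent.H262R3.Lk.swq 1
  refine ⟨max (max (max z1 z2) 3) (max z3 ⌈Real.exp (100 + 4 * b)⌉₊), ?_⟩
  intro z hz'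
  have hz : max (max z1 z2) 3 ≤ z := (le_max_left _ _).trans hz'
  have hz3w : z3 ≤ z := (le_max_left _ _).trans ((le_max_right _ _).trans hz')
  have hz5w : ⌈Real.exp (100 + 4 * b)⌉₊ ≤ z := (le_max_right _ _).trans ((le_max_right _ _).trans hz')
  have hz1 : z1 ≤ z := le_trans (le_trans (le_max_left _ _) (le_max_left _ _)) hz
  have hz2 : z2 ≤ z := le_trans (le_trans (le_max_right _ _) (le_max_left _ _)) hz
  have hz4 : 3 ≤ z := le_trans (le_max_right _ _) hz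
  have hz0 : (0 : ℝ) < z := by exact_mod_cast (by omega : 0 < z)
  have hlogb : (100 : ℝ) + 4 * b ≤ Real.log z := by
    rw [Real.le_log_iff_exp_le hz0]
    exact (Nat.le_ceil _).trans (by exact_mod_cast hz5w)
  have hb0' : (0 : ℝ) ≤ b := by positivity
  have hlog100 : 100 ≤ Real.log z := by linarith
  have h8 : ∀ q : ℕ, 0 < q → q ^ 16 ≤ z → q ^ 8 ≤ z := fun q hq h =>
    (Nat.pow_le_pow_right hq (by norm_num)).trans h
  -- it is enough that no real character is exceptional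
  have hmain : ∀ q b : ℕ, 0 < q → q ^ 16 ≤ z → b.Coprime q →
      (∀ χ : DirichletCharacter ℂ q, χ ≠ 1 → χ ^ 2 = 1 →
        lam ≤ ‖Lj z χ 0 (1 / (A * Real.log z))‖) →
      c / (2 * (K : ℝ) ^ 3) / (q.totient : ℝ) ≤
      ∑ p ∈ (Ioc z (z ^ K)).filter (fun p => p.Prime ∧ p ≡ b [MOD q]), (1 : ℝ) / p := by
    intro q b hqpos hq hb hreal
    have : NeZero q := ⟨hqpos.ne'⟩
    have hlow := (h1 z q hz1 (h8 q hqpos hq)).1 b hb hreal
    have hup := h2 z q b hz2 hqpos (h8 q hqpos hq) hb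
    have hphi : (0 : ℝ) < (q.totient : ℝ) := by
      exact_mod_cast Nat.totient_pos.2 hqpos
    have hL3 : (0 : ℝ) < (Real.log z) ^ 3 := by positivity
    obtain ⟨S, hS⟩ : ∃ S : ℝ, S = ∑ p ∈ (Ioc z (z ^ K)).filter
      (fun p => p.Prime ∧ p ≡ b [MOD q]), (1 : ℝ) / p := ⟨_, rfl⟩
    rw [← hS] at hup ⊢
    have h5 : c * (Real.log z) ^ 3 / (q.totient : ℝ) ≤
        c / 2 * (Real.log z) ^ 3 / (q.totient : ℝ) + (K : ℝ) ^ 3 * (Real.log z) ^ 3 * S :=
      le_trans hlow hup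
    have h6 : (c / 2 / (q.totient : ℝ)) * (Real.log z) ^ 3 ≤
        ((K : ℝ) ^ 3 * S) * (Real.log z) ^ 3 := by
      have e1 : c * (Real.log z) ^ 3 / (q.totient : ℝ) =
          2 * ((c / 2 / (q.totient : ℝ)) * (Real.log z) ^ 3) := by
        field_simp
      have e2 : c / 2 * (Real.log z) ^ 3 / (q.totient : ℝ) =
          (c / 2 / (q.totient : ℝ)) * (Real.log z) ^ 3 := by
        field_simp
      rw [e1, e2] at h5
      nlinarith
    have h7 : c / 2 / (q.totient : ℝ) ≤ (K : ℝ) ^ 3 * S :=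
      le_of_mul_le_mul_right h6 hL3
    have hK3 : (0 : ℝ) < (K : ℝ) ^ 3 := by positivity
    have e3 : c / (2 * (K : ℝ) ^ 3) / (q.totient : ℝ) =
        (c / 2 / (q.totient : ℝ)) / (K : ℝ) ^ 3 := by
      field_simp
    rw [e3, div_le_iff₀ hK3]
    linarith
  intro k a hkz ha
  have hq0 : 0 < b ^ k := by positivity
  refine hmain (b ^ k) a hq0 hkz ha ?_
  intro χ hχ hχ2
  have : NeZero (b ^ k) := ⟨hq0.ne'⟩
  have hc0 : χ.conductor ≠ 0 := χ.conductor_ne_zero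
  have hc1 : χ.conductor ≠ 1 := fun h => hχ (χ.eq_one_iff_conductor_eq_one.2 h)
  have hc100 := conductor_le b hb k χ hχ2
  have hqz : b ^ k ≤ z := (Nat.le_self_pow (by norm_num) _).trans hkz
  have hcz : χ.conductor ≤ z := (Nat.le_of_dvd hq0 χ.conductor_dvd_level).trans hqz
  have hsm : (χ.conductor : ℝ) ≤ Real.log z ^ 1 := by
    rw [pow_one]
    have hc' : (χ.conductor : ℝ) ≤ 4 * b := by exact_mod_cast hc100
    linarith
  have h6 := h3w z hz3w χ.conductor (by omega) hsm χ.primitiveCharacter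
    χ.primitiveCharacter_isPrimitive (1 / (A * Real.log z)) (by positivity) (by
      rw [div_le_one (by positivity)]
      nlinarith)
  have h7 := Pool.Agent.Y866.LK.Lj_lift (z := z) χ.conductor_dvd_level hqz χ.primitiveCharacter
    (1 / (A * Real.log z))
  have h8 : DirichletCharacter.changeLevel χ.conductor_dvd_level χ.primitiveCharacter = χ :=
    (χ.factorsThrough_conductor.eq_changeLevel).symm
  rw [h8] at h7
  rw [h7]
  linarith

end Pool.Agent.H7.TO
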